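import Mathlib

/-!
Definitions for the Bochner term on symmetric `p`-tensors: algebraic curvature tensors, the
curvature conditions, and the Riemann curvature tensor of a smooth Riemannian manifold.
-/

open Finset Function

namespace Pool.Agent.H38.SecP

variable {E : Type*} [NormedAddCommGroup E] [InnerProductSpace ℝ E] {p n : ℕ}

/-- An algebraic curvature tensor `R (X, Y) Z` on a real inner product space, with the sign
convention `sec (X, Y) = ⟨R (X, Y) Y, X⟩`: antisymmetric in `X, Y`, skew-adjoint as an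
endomorphism `R (X, Y)`, and satisfying the first Bianchi identity. -/
structure IsCurvatureTensor (R : E →ₗ[ℝ] E →ₗ[ℝ] E →ₗ[ℝ] E) : Prop where
  antisymm : ∀ X Y Z, R X Y Z = - R Y X Z
  skew : ∀ X Y Z W, inner ℝ (R X Y Z) W = - inner ℝ Z (R X Y W)
  bianchi : ∀ X Y Z, R X Y Z + R Y Z X + R Z X Y = 0

/-- The action of an endomorphism `A` as a derivation on a covariant `p`-tensor:
`(A φ) (Z₁, ..., Zₚ) = - ∑_b φ (Z₁, ..., A Z_b, ..., Zₚ)`. -/
def act (A : E → E) (φ : (Fin p → E) → ℝ) (Z : Fin p → E) : ℝ :=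
  - ∑ b, φ (update Z b (A (Z b)))

/-- The zeroth-order term of the Bochner formula in the orthonormal basis `e`:
`(K φ) (X₁, ..., Xₚ) = ∑_a ∑_i (R (e_i, X_a) φ) (X₁, ..., X_{a-1}, e_i, X_{a+1}, ..., Xₚ)`. -/
def bochnerTerm {n : ℕ} (R : E →ₗ[ℝ] E →ₗ[ℝ] E →ₗ[ℝ] E) (e : Fin n → E)
    (φ : (Fin p → E) → ℝ) (X : Fin p → E) : ℝ :=
  ∑ a, ∑ i, act (R (e i) (X a)) φ (update X a (e i))


/-- Real-valued `p`-linear maps on `E` (covariant `p`-tensors). -/
abbrev T (p : ℕ) (E : Type*) [NormedAddCommGroup E] [InnerProductSpace ℝ E] :=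
  MultilinearMap ℝ (fun _ : Fin p => E) ℝ

/-- A covariant `p`-tensor is symmetric if it is invariant under permutations of its arguments. -/
def IsSymm (φ : T p E) : Prop := ∀ (σ : Equiv.Perm (Fin p)) (X : Fin p → E), φ (X ∘ σ) = φ X

/-- Sectional curvature of the plane spanned by two orthonormal vectors `X, Y`. -/
noncomputable def sec (R : E →ₗ[ℝ] E →ₗ[ℝ] E →ₗ[ℝ] E) (X Y : E) : ℝ :=
  inner ℝ (R X Y Y) X

/-- `k`-nonnegative sectional curvature in dimension `n`: for every orthonormal basis `b`, any `k`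
of the numbers `sec (b i) (b j)`, `i < j`, have nonnegative sum (equivalently, the `k` smallest
ones have nonnegative sum). -/
def KNonnegSec (n : ℕ) (R : E →ₗ[ℝ] E →ₗ[ℝ] E →ₗ[ℝ] E) (k : ℕ) : Prop :=
  ∀ (b : OrthonormalBasis (Fin n) ℝ E) (S : Finset (Fin n × Fin n)),
    (∀ q ∈ S, q.1 < q.2) → S.card = k → 0 ≤ ∑ q ∈ S, sec R (b q.1) (b q.2)

/-- Lower bound `c` for all weighted sums of total weight `κ` of sectional curvatures of planes
through a common vector: for every orthonormal basis `b`, every index `i` and all weights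
`t j ∈ [0, 1]` with `t i = 0` and `∑ t j = κ`, `c ≤ ∑ t j * sec (b i) (b j)`.  For `κ` an integer
`k` and `c = 0` this says that the `k`-th intermediate Ricci curvature is nonnegative. -/
def RicGe (n : ℕ) (R : E →ₗ[ℝ] E →ₗ[ℝ] E →ₗ[ℝ] E) (κ c : ℝ) : Prop :=
  ∀ (b : OrthonormalBasis (Fin n) ℝ E) (i : Fin n) (t : Fin n → ℝ),
    (∀ j, 0 ≤ t j ∧ t j ≤ 1) → t i = 0 → ∑ j, t j = κ → c ≤ ∑ j, t j * sec R (b i) (b j)

/-- A covariant `p`-tensor is trace-free if all its contractions over two different slots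
vanish. -/
def TraceFree {n : ℕ} (e : Fin n → E) (φ : T p E) : Prop :=
  ∀ (X : Fin p → E) (a b : Fin p), a ≠ b →
    ∑ i, φ (update (update X a (e i)) b (e i)) = 0

/-- `K(R, Sym^p)` is positive semidefinite: `⟨K(R, Sym^p) φ, φ⟩ ≥ 0` in every orthonormal basis
`e`, for every symmetric `p`-tensor `φ`. -/
def SymNonneg (n p : ℕ) (R : E →ₗ[ℝ] E →ₗ[ℝ] E →ₗ[ℝ] E) : Prop :=
  ∀ (e : OrthonormalBasis (Fin n) ℝ E) (φ : T p E), IsSymm φ →
    0 ≤ ∑ I : Fin p → Fin n, bochnerTerm R e φ (fun a => e (I a)) * φ (fun a => e (I a))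

/-- The real number `(n + p - 2) / p`. -/
noncomputable def wt (n p : ℕ) : ℝ := ((n : ℝ) + p - 2) / p

/-- `K(R, Sym^p) ≥ C` on trace-free tensors: `⟨K(R, Sym^p) φ, φ⟩ ≥ C |φ| ^ 2` in every orthonormal
basis `e`, for every trace-free symmetric `p`-tensor `φ`. -/
def TraceFreeGe (n p : ℕ) (R : E →ₗ[ℝ] E →ₗ[ℝ] E →ₗ[ℝ] E) (C : ℝ) : Prop :=
  ∀ (e : OrthonormalBasis (Fin n) ℝ E) (φ : T p E), IsSymm φ → TraceFree e φ →
    C * ∑ I : Fin p → Fin n, (φ (fun a => e (I a))) ^ 2 ≤
      ∑ I : Fin p → Fin n, bochnerTerm R e φ (fun a => e (I a)) * φ (fun a => e (I a))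

/-- Every algebraic curvature tensor on `ℝ ^ n` with `k`-nonnegative sectional curvature has
`K(R, Sym^p) ≥ 0`. -/
def SecSuffices (n p k : ℕ) : Prop :=
  ∀ R : EuclideanSpace ℝ (Fin n) →ₗ[ℝ] EuclideanSpace ℝ (Fin n) →ₗ[ℝ]
      EuclideanSpace ℝ (Fin n) →ₗ[ℝ] EuclideanSpace ℝ (Fin n),
    IsCurvatureTensor R → KNonnegSec n R k → SymNonneg n p R

/-- Every algebraic curvature tensor on `ℝ ^ n` with `RicGe n R κ 0` has
`K(R, Sym^p) ≥ 0`. -/
def RicSuffices (n p : ℕ) (κ : ℝ) : Prop :=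
  ∀ R : EuclideanSpace ℝ (Fin n) →ₗ[ℝ] EuclideanSpace ℝ (Fin n) →ₗ[ℝ]
      EuclideanSpace ℝ (Fin n) →ₗ[ℝ] EuclideanSpace ℝ (Fin n),
    IsCurvatureTensor R → RicGe n R κ 0 → SymNonneg n p R

end Pool.Agent.H38.SecP

open Bundle Manifold ContDiff VectorField Filter
open scoped Topology

set_option linter.unusedSectionVars false

noncomputable section

namespace Pool.Agent.H38.SecP.Riem

variable {E : Type*} [NormedAddCommGroup E] [NormedSpace ℝ E] [FiniteDimensional ℝ E]
  {H : Type*} [TopologicalSpace H] {I : ModelWithCorners ℝ E H}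
  {M : Type*} [TopologicalSpace M] [ChartedSpace H M] [IsManifold I ∞ M]

/-- The vector field `∇_X Y` of a covariant derivative. -/
def nabla (cov : CovariantDerivative I E (TangentSpace I : M → Type _))
    (X Y : Π x : M, TangentSpace I x) : Π x : M, TangentSpace I x :=
  fun x => cov Y x (X x)

/-- The curvature `R(X,Y)Z = ∇_X ∇_Y Z - ∇_Y ∇_X Z - ∇_{[X,Y]} Z` of a connection, evaluated on
vector fields. -/
def curv (cov : CovariantDerivative I E (TangentSpace I : M → Type _))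
    (X Y Z : Π x : M, TangentSpace I x) : Π x : M, TangentSpace I x :=
  fun x => cov (nabla cov Y Z) x (X x) - cov (nabla cov X Z) x (Y x) -
    cov Z x (mlieBracket I X Y x)

/-- The connection is torsion-free: `∇_X Y - ∇_Y X = [X, Y]` for all smooth vector fields. -/
def IsTorsionFree (cov : CovariantDerivative I E (TangentSpace I : M → Type _)) : Prop :=
  ∀ ⦃X Y : Π x : M, TangentSpace I x⦄, CMDiff ∞ (T% X) → CMDiff ∞ (T% Y) →
    ∀ x, cov Y x (X x) - cov X x (Y x) = mlieBracket I X Y x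

/-- A field of trilinear maps `T_x M × T_x M × T_x M → T_x M` on `M`. -/
def CurvField (I : ModelWithCorners ℝ E H) (M : Type*) [TopologicalSpace M]
    [ChartedSpace H M] : Type _ :=
  Π x : M, TangentSpace I x →ₗ[ℝ] TangentSpace I x →ₗ[ℝ] TangentSpace I x →ₗ[ℝ] TangentSpace I x

variable [RiemannianBundle (fun x : M => TangentSpace I x)]
  [IsContMDiffRiemannianBundle I ∞ E (fun x : M => TangentSpace I x)]

/-- The connection is compatible with the metric:
`X ⟨Y, Z⟩ = ⟨∇_X Y, Z⟩ + ⟨Y, ∇_X Z⟩` for all smooth vector fields `X, Y, Z`. -/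
def IsMetric (cov : CovariantDerivative I E (TangentSpace I : M → Type _)) : Prop :=
  ∀ ⦃X Y Z : Π x : M, TangentSpace I x⦄, CMDiff ∞ (T% X) → CMDiff ∞ (T% Y) → CMDiff ∞ (T% Z) →
    ∀ x, d% (fun y => inner ℝ (Y y) (Z y)) x (X x) =
      inner ℝ (cov Y x (X x)) (Z x) + inner ℝ (Y x) (cov Z x (X x))

/-- The Levi-Civita connection of the Riemannian metric: a smooth connection on the tangent bundle
which is metric and torsion-free. -/
structure IsLeviCivita (cov : CovariantDerivative I E (TangentSpace I : M → Type _)) : Prop where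
  smooth : CovariantDerivative.ContMDiffCovariantDerivative cov ∞
  metric : IsMetric cov
  torsionFree : IsTorsionFree cov

/-- `R` is the Riemann curvature tensor of the connection: a trilinear map on each tangent space
with `R(X,Y)Z = ∇_X ∇_Y Z - ∇_Y ∇_X Z - ∇_{[X,Y]} Z` for all smooth vector fields. -/
def IsRiemannTensor (cov : CovariantDerivative I E (TangentSpace I : M → Type _))
    (R : CurvField I M) : Prop :=
  ∀ ⦃X Y Z : Π x : M, TangentSpace I x⦄, CMDiff ∞ (T% X) → CMDiff ∞ (T% Y) → CMDiff ∞ (T% Z) →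
    ∀ x, R x (X x) (Y x) (Z x) = curv cov X Y Z x

end Pool.Agent.H38.SecP.Riem
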