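import Pool.Agent.H38.SecP.Sharp

/-!
The Bochner term of the one-plane curvature tensor, and the curvature tensors that show that the
constants are optimal.
-/

open Finset Function

namespace Pool.Agent.H38.SecP

variable {E : Type*} [NormedAddCommGroup E] [InnerProductSpace ℝ E] {p n : ℕ}

theorem sum_form (e : OrthonormalBasis (Fin n) ℝ E) (u v x : E) :
    ∑ i, ((inner ℝ u (e i) * inner ℝ v x - inner ℝ v (e i) * inner ℝ u x : ℝ) : ℂ) *
      zc u v (e i) = (inner ℝ v x : ℂ) * zc u v u - (inner ℝ u x : ℂ) * zc u v v := by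
  have h : ∀ y : E, ∑ i, ((inner ℝ y (e i) : ℝ) : ℂ) * zc u v (e i) = zc u v y := by
    intro y
    conv_rhs => rw [← e.sum_repr' y]
    rw [map_sum]
    apply Finset.sum_congr rfl
    intro i _
    rw [map_smul, real_inner_comm]
    simp
  rw [← h u, ← h v, Finset.mul_sum, Finset.mul_sum, ← Finset.sum_sub_distrib]
  apply Finset.sum_congr rfl
  intro i _
  push_cast
  ring

theorem act_plane (u v : E) (huu : inner ℝ u u = 1) (hvv : inner ℝ v v = 1)
    (huv : inner ℝ u v = 0) (x y : E) (Z : Fin p → E) :
    act (planeCurv u v x y) (phi p u v) Z =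
      - ((inner ℝ u x * inner ℝ v y - inner ℝ v x * inner ℝ u y) * (p : ℝ) *
        (∏ a, zc u v (Z a)).im) := by
  unfold act
  have h : ∀ b : Fin p, phi p u v (update Z b (planeCurv u v x y (Z b))) =
      (inner ℝ u x * inner ℝ v y - inner ℝ v x * inner ℝ u y) *
        (∏ a, zc u v (Z a)).im := by
    intro b
    rw [phi_update, ← Finset.mul_prod_erase Finset.univ (fun a => zc u v (Z a))
      (Finset.mem_univ b), planeCurv_apply, map_smul, map_sub, map_smul, map_smul]
    have hvu : inner ℝ v u = 0 := by rw [real_inner_comm, huv]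
    have hu : zc u v u = 1 := by rw [zc_apply, huu, hvu]; simp
    have hv : zc u v v = Complex.I := by rw [zc_apply, huv, hvv]; simp
    rw [hu, hv, zc_apply]
    generalize ∏ x ∈ Finset.univ.erase b, zc u v (Z x) = q
    simp [Complex.add_re, Complex.mul_re, Complex.mul_im]
    ring
  simp only [h]
  simp
  ring

/-- The Bochner term of the one-plane curvature tensor on `Re (⟨u, x⟩ + i ⟨v, x⟩) ^ p`. -/
theorem bochner_plane (e : OrthonormalBasis (Fin n) ℝ E) (u v : E) (huu : inner ℝ u u = 1)
    (hvv : inner ℝ v v = 1) (huv : inner ℝ u v = 0) (X : Fin p → E) :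
    bochnerTerm (planeCurv u v) e (phi p u v) X = (p : ℝ) ^ 2 * phi p u v X := by
  unfold bochnerTerm
  have hvu : inner ℝ v u = 0 := by rw [real_inner_comm, huv]
  have hu : zc u v u = 1 := by rw [zc_apply, huu, hvu]; simp
  have hv : zc u v v = Complex.I := by rw [zc_apply, huv, hvv]; simp
  have key : ∀ a : Fin p, ∑ i, act (planeCurv u v (e i) (X a)) (phi p u v)
      (update X a (e i)) = p * phi p u v X := by
    intro a
    have h1 : ∀ i, act (planeCurv u v (e i) (X a)) (phi p u v) (update X a (e i)) =
        - ((p : ℝ) * ((((inner ℝ u (e i) * inner ℝ v (X a) -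
          inner ℝ v (e i) * inner ℝ u (X a) : ℝ) : ℂ) * zc u v (e i)) *
          ∏ b ∈ Finset.univ.erase a, zc u v (X b)).im) := by
      intro i
      rw [act_plane u v huu hvv huv, ← Finset.mul_prod_erase Finset.univ
        (fun b => zc u v (update X a (e i) b)) (Finset.mem_univ a), update_self]
      have h2 : ∏ b ∈ Finset.univ.erase a, zc u v (update X a (e i) b) =
          ∏ b ∈ Finset.univ.erase a, zc u v (X b) := by
        apply Finset.prod_congr rfl
        intro b hb
        rw [update_of_ne (Finset.ne_of_mem_erase hb)]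
      rw [h2, mul_assoc ((_ : ℝ) : ℂ), Complex.im_ofReal_mul]
      ring
    simp only [h1]
    rw [Finset.sum_neg_distrib, ← Finset.mul_sum, ← Complex.im_sum, ← Finset.sum_mul, sum_form,
      hu, hv, phi_apply, ← Finset.mul_prod_erase Finset.univ (fun b => zc u v (X b))
      (Finset.mem_univ a), zc_apply]
    generalize ∏ b ∈ Finset.univ.erase a, zc u v (X b) = q
    simp [Complex.add_re, Complex.mul_re, Complex.mul_im]
    ring
  simp only [key]
  simp
  ring

theorem phi_traceFree (e : OrthonormalBasis (Fin n) ℝ E) (u v : E) (huu : inner ℝ u u = 1)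
    (hvv : inner ℝ v v = 1) (huv : inner ℝ u v = 0) : TraceFree e (phi p u v) := by
  intro X a b hab
  have h1 : ∀ i, phi p u v (update (update X a (e i)) b (e i)) =
      ((zc u v (e i) * zc u v (e i)) *
        ∏ c ∈ (Finset.univ.erase b).erase a, zc u v (X c)).re := by
    intro i
    rw [phi_update, ← Finset.mul_prod_erase (Finset.univ.erase b)
      (fun c => zc u v (update X a (e i) c)) (a := a) (by simp [hab]), update_self, mul_assoc]
    congr 3
    apply Finset.prod_congr rfl
    intro c hc
    rw [update_of_ne (Finset.ne_of_mem_erase hc)]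
  simp only [h1]
  rw [← Complex.re_sum, ← Finset.sum_mul]
  have h2 : ∑ i, zc u v (e i) * zc u v (e i) = 0 := by
    have h3 : ∀ i, zc u v (e i) * zc u v (e i) =
        ((inner ℝ u (e i) * inner ℝ (e i) u - inner ℝ v (e i) * inner ℝ (e i) v : ℝ) : ℂ) +
        ((2 * (inner ℝ u (e i) * inner ℝ (e i) v) : ℝ) : ℂ) * Complex.I := by
      intro i
      rw [zc_apply, real_inner_comm u (e i), real_inner_comm v (e i)]
      have := Complex.I_mul_I
      push_cast
      linear_combination ((inner ℝ v (e i) : ℝ) : ℂ) ^ 2 * this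
    simp only [h3]
    rw [Finset.sum_add_distrib, ← Finset.sum_mul, ← Complex.ofReal_sum, ← Complex.ofReal_sum,
      Finset.sum_sub_distrib, ← Finset.mul_sum, e.sum_inner_mul_inner, e.sum_inner_mul_inner,
      e.sum_inner_mul_inner, huu, hvv, huv]
    simp
  rw [h2]
  simp

end Pool.Agent.H38.SecP
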