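import Pool.Agent.H38.SecP.Pointwise

/-!
Linear combinations of curvature tensors, the Bochner term of the constant curvature tensor and of
the curvature tensor concentrated on one plane, and the comparison of the curvature conditions.
-/

open Finset Function

namespace Pool.Agent.H38.SecP

variable {E : Type*} [NormedAddCommGroup E] [InnerProductSpace ℝ E] {p n : ℕ}

theorem IsCurvatureTensor.lin {R S : E →ₗ[ℝ] E →ₗ[ℝ] E →ₗ[ℝ] E} (hR : IsCurvatureTensor R)
    (hS : IsCurvatureTensor S) (a b : ℝ) : IsCurvatureTensor (a • R + b • S) where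
  antisymm X Y Z := by
    simp only [LinearMap.add_apply, LinearMap.smul_apply]
    rw [hR.antisymm X Y Z, hS.antisymm X Y Z]
    module
  skew X Y Z W := by
    simp only [LinearMap.add_apply, LinearMap.smul_apply, inner_add_left, inner_add_right,
      inner_smul_left, inner_smul_right]
    rw [hR.skew X Y Z W, hS.skew X Y Z W]
    simp
    ring
  bianchi X Y Z := by
    simp only [LinearMap.add_apply, LinearMap.smul_apply]
    have h1 := hR.bianchi X Y Z
    have h2 := hS.bianchi X Y Z
    have : a • R X Y Z + b • S X Y Z + (a • R Y Z X + b • S Y Z X) +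
        (a • R Z X Y + b • S Z X Y) =
        a • (R X Y Z + R Y Z X + R Z X Y) + b • (S X Y Z + S Y Z X + S Z X Y) := by module
    rw [this, h1, h2]
    simp

theorem sec_lin (R S : E →ₗ[ℝ] E →ₗ[ℝ] E →ₗ[ℝ] E) (a b : ℝ) (X Y : E) :
    sec (a • R + b • S) X Y = a * sec R X Y + b * sec S X Y := by
  unfold sec
  simp only [LinearMap.add_apply, LinearMap.smul_apply, inner_add_left, inner_smul_left]
  simp

theorem bochnerTerm_lin (R S : E →ₗ[ℝ] E →ₗ[ℝ] E →ₗ[ℝ] E) (a b : ℝ) (e : Fin n → E) (φ : T p E)
    (X : Fin p → E) :
    bochnerTerm (a • R + b • S) e φ X = a * bochnerTerm R e φ X + b * bochnerTerm S e φ X := by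
  unfold bochnerTerm
  simp only [act_eq_rho, Finset.mul_sum]
  rw [← Finset.sum_add_distrib]
  apply Finset.sum_congr rfl
  intro c _
  rw [← Finset.sum_add_distrib]
  apply Finset.sum_congr rfl
  intro i _
  have : (a • R + b • S) (e i) (X c) = a • R (e i) (X c) + b • S (e i) (X c) := rfl
  rw [this, rho_add, rho_smul, rho_smul]
  rfl

theorem sum_slot (e : OrthonormalBasis (Fin n) ℝ E) (φ : T p E) (X : Fin p → E) (a : Fin p)
    (x : E) : ∑ i, inner ℝ (e i) x * φ (update X a (e i)) = φ (update X a x) := by
  conv_rhs => rw [← e.sum_repr' x]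
  rw [MultilinearMap.map_update_sum]
  apply Finset.sum_congr rfl
  intro i _
  rw [MultilinearMap.map_update_smul, smul_eq_mul]

/-- The Bochner term of the tensor of constant curvature one on trace-free symmetric tensors. -/
theorem bochner_const (e : OrthonormalBasis (Fin n) ℝ E) (φ : T p E) (hs : IsSymm φ)
    (ht : TraceFree e φ) (X : Fin p → E) :
    bochnerTerm constCurv e φ X = p * (n + p - 2) * φ X := by
  have key : ∀ a : Fin p, ∑ i, act (constCurv (e i) (X a)) φ (update X a (e i)) =
      (n + p - 2) * φ X := by
    intro a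
    have h1 : ∀ i, act (constCurv (e i) (X a)) φ (update X a (e i)) =
        - (inner ℝ (e i) (X a) * φ (update X a (e i)) - φ X) -
        ∑ b ∈ Finset.univ.erase a, (inner ℝ (X a) (X b) *
          φ (update (update X a (e i)) b (e i)) -
          inner ℝ (e i) (X b) * φ (update (update X b (X a)) a (e i))) := by
      intro i
      unfold act
      rw [← Finset.add_sum_erase _ _ (Finset.mem_univ a), neg_add, update_idem, update_self,
        sub_eq_add_neg]
      congr 2
      · rw [constCurv_apply, MultilinearMap.map_update_sub, MultilinearMap.map_update_smul,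
          MultilinearMap.map_update_smul, update_eq_self, real_inner_self_eq_norm_sq,
          e.orthonormal.1 i, real_inner_comm]
        simp
      · apply Finset.sum_congr rfl
        intro b hb
        have hne := Finset.ne_of_mem_erase hb
        rw [update_of_ne hne, constCurv_apply, MultilinearMap.map_update_sub,
          MultilinearMap.map_update_smul, MultilinearMap.map_update_smul, smul_eq_mul,
          smul_eq_mul, update_comm hne.symm (e i) (X a) X]
    simp only [h1]
    rw [Finset.sum_sub_distrib, Finset.sum_neg_distrib, Finset.sum_sub_distrib, sum_slot,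
      update_eq_self, Finset.sum_comm]
    have h2 : ∀ b ∈ Finset.univ.erase a, ∑ i, (inner ℝ (X a) (X b) *
          φ (update (update X a (e i)) b (e i)) -
          inner ℝ (e i) (X b) * φ (update (update X b (X a)) a (e i))) = - φ X := by
      intro b hb
      have hne := Finset.ne_of_mem_erase hb
      rw [Finset.sum_sub_distrib, ← Finset.mul_sum, ht X a b hne.symm, mul_zero, sum_slot,
        zero_sub, ← hs (Equiv.swap a b) X]
      congr 2
      ext i
      by_cases hia : i = a
      · subst hia; simp
      · by_cases hib : i = b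
        · subst hib; simp [hia]
        · simp [hia, hib, Equiv.swap_apply_of_ne_of_ne hia hib]
    rw [Finset.sum_congr rfl h2]
    simp only [Finset.sum_const, Finset.card_univ, Fintype.card_fin, nsmul_eq_mul,
      Finset.card_erase_of_mem (Finset.mem_univ a)]
    have hp : 1 ≤ p := by
      have := a.2
      omega
    push_cast [Nat.cast_sub hp]
    ring
  unfold bochnerTerm
  simp only [key]
  simp
  ring

/-- The curvature tensor concentrated on the plane of the orthonormal vectors `u, v`, with
sectional curvature one there. -/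
noncomputable def planeCurv (u v : E) : E →ₗ[ℝ] E →ₗ[ℝ] E →ₗ[ℝ] E :=
  LinearMap.mk₂ ℝ (fun X Y => (inner ℝ u X * inner ℝ v Y - inner ℝ v X * inner ℝ u Y) •
      ((innerₛₗ ℝ v).smulRight u - (innerₛₗ ℝ u).smulRight v))
    (fun X X' Y => LinearMap.ext fun Z => by simp [inner_add_right]; module)
    (fun c X Y => LinearMap.ext fun Z => by simp [inner_smul_right]; module)
    (fun X Y Y' => LinearMap.ext fun Z => by simp [inner_add_right]; module)
    (fun c X Y => LinearMap.ext fun Z => by simp [inner_smul_right]; module)

theorem planeCurv_apply (u v X Y Z : E) :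
    planeCurv u v X Y Z = (inner ℝ u X * inner ℝ v Y - inner ℝ v X * inner ℝ u Y) •
      (inner ℝ v Z • u - inner ℝ u Z • v) := by
  simp [planeCurv]

theorem planeCurv_isCurvatureTensor (u v : E) : IsCurvatureTensor (planeCurv u v) where
  antisymm X Y Z := by
    rw [planeCurv_apply, planeCurv_apply]
    module
  skew X Y Z W := by
    rw [planeCurv_apply, planeCurv_apply]
    simp only [inner_sub_left, inner_sub_right, inner_smul_left, inner_smul_right]
    rw [real_inner_comm Z u, real_inner_comm Z v]
    simp
    ring
  bianchi X Y Z := by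
    rw [planeCurv_apply, planeCurv_apply, planeCurv_apply]
    module

theorem sec_planeCurv (u v X Y : E) :
    sec (planeCurv u v) X Y = (inner ℝ u X * inner ℝ v Y - inner ℝ v X * inner ℝ u Y) ^ 2 := by
  unfold sec
  rw [planeCurv_apply]
  simp only [inner_sub_left, inner_smul_left]
  simp
  ring

/-- The complex linear form `x ↦ ⟨u, x⟩ + i ⟨v, x⟩`. -/
noncomputable def zc (u v : E) : E →ₗ[ℝ] ℂ :=
  (innerₛₗ ℝ u).smulRight (1 : ℂ) + (innerₛₗ ℝ v).smulRight Complex.I

theorem zc_apply (u v x : E) :
    zc u v x = (inner ℝ u x : ℂ) + (inner ℝ v x : ℂ) * Complex.I := by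
  simp [zc]

/-- The symmetric tensor of the polynomial `Re (⟨u, x⟩ + i ⟨v, x⟩) ^ p`. -/
noncomputable def phi (p : ℕ) (u v : E) : T p E :=
  Complex.reLm.compMultilinearMap
    ((MultilinearMap.mkPiAlgebra ℝ (Fin p) ℂ).compLinearMap (fun _ => zc u v))

theorem phi_apply (p : ℕ) (u v : E) (X : Fin p → E) :
    phi p u v X = (∏ a, zc u v (X a)).re := by
  simp [phi]

theorem phi_symm (p : ℕ) (u v : E) : IsSymm (phi p u v) := by
  intro σ X
  rw [phi_apply, phi_apply]
  congr 1
  exact Equiv.prod_comp σ (fun a => zc u v (X a))

theorem phi_update (u v : E) (X : Fin p → E) (a : Fin p) (y : E) :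
    phi p u v (update X a y) = (zc u v y * ∏ b ∈ Finset.univ.erase a, zc u v (X b)).re := by
  rw [phi_apply, ← Finset.mul_prod_erase Finset.univ _ (Finset.mem_univ a), update_self]
  congr 2
  apply Finset.prod_congr rfl
  intro b hb
  rw [update_of_ne (Finset.ne_of_mem_erase hb)]

end Pool.Agent.H38.SecP
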