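import Pool.Agent.H38.SecP.Model

/-!
The exact thresholds for the curvature conditions on algebraic curvature tensors, and the
quantitative form of the pointwise theorem.
-/

open Finset Function

namespace Pool.Agent.H38.SecP

variable {E : Type*} [NormedAddCommGroup E] [InnerProductSpace ℝ E] {p n : ℕ}

theorem sum_sq (b : OrthonormalBasis (Fin n) ℝ E) {u v : E} (huu : inner ℝ u u = 1)
    (hvv : inner ℝ v v = 1) (huv : inner ℝ u v = 0) (x : E) :
    ∑ j, (inner ℝ u x * inner ℝ v (b j) - inner ℝ v x * inner ℝ u (b j)) ^ 2 =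
      inner ℝ u x ^ 2 + inner ℝ v x ^ 2 := by
  have h1 := b.sum_inner_mul_inner u u
  have h2 := b.sum_inner_mul_inner v v
  have h3 := b.sum_inner_mul_inner u v
  rw [huu] at h1
  rw [hvv] at h2
  rw [huv] at h3
  have h4 : ∀ j, (inner ℝ u x * inner ℝ v (b j) - inner ℝ v x * inner ℝ u (b j)) ^ 2 =
      inner ℝ u x ^ 2 * (inner ℝ v (b j) * inner ℝ (b j) v) -
      (2 * inner ℝ u x * inner ℝ v x) * (inner ℝ u (b j) * inner ℝ (b j) v) +
      inner ℝ v x ^ 2 * (inner ℝ u (b j) * inner ℝ (b j) u) := by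
    intro j
    rw [real_inner_comm v (b j), real_inner_comm u (b j)]
    ring
  simp only [h4]
  rw [Finset.sum_add_distrib, Finset.sum_sub_distrib, ← Finset.mul_sum, ← Finset.mul_sum,
    ← Finset.mul_sum, h1, h2, h3]
  ring

theorem bessel {u v : E} (huu : inner ℝ u u = 1)
    (hvv : inner ℝ v v = 1) (huv : inner ℝ u v = 0) (x : E) :
    inner ℝ u x ^ 2 + inner ℝ v x ^ 2 ≤ inner ℝ x x := by
  have h := real_inner_self_nonneg (x := x - (inner ℝ u x : ℝ) • u - (inner ℝ v x : ℝ) • v)
  simp only [inner_sub_left, inner_sub_right, inner_smul_left, inner_smul_right] at h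
  rw [real_inner_comm u x, real_inner_comm v x, real_inner_comm u v, huu, hvv, huv] at h
  simp at h
  rw [real_inner_self_eq_norm_sq]
  nlinarith [h]

/-- The curvature tensor with `sec (X, Y) = s - (1 + s) (ω (X, Y)) ^ 2` on orthonormal pairs,
`ω` the area form of the plane of `u, v`. -/
noncomputable def modelCurv (s : ℝ) (u v : E) : E →ₗ[ℝ] E →ₗ[ℝ] E →ₗ[ℝ] E :=
  s • constCurv + (-(1 + s)) • planeCurv u v

theorem sec_model (s : ℝ) (u v : E) (b : OrthonormalBasis (Fin n) ℝ E) {i j : Fin n}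
    (hij : i ≠ j) : sec (modelCurv s u v) (b i) (b j) =
      s - (1 + s) * (inner ℝ u (b i) * inner ℝ v (b j) - inner ℝ v (b i) * inner ℝ u (b j)) ^ 2 := by
  unfold modelCurv
  rw [sec_lin, sec_constCurv (b.orthonormal.1 i) (b.orthonormal.1 j) (b.orthonormal.2 hij),
    sec_planeCurv]
  ring

theorem ricGe_model {κ s : ℝ} (hκ : 1 < κ) (hs : 1 ≤ (κ - 1) * s) {u v : E}
    (huu : inner ℝ u u = 1) (hvv : inner ℝ v v = 1) (huv : inner ℝ u v = 0) :
    RicGe n (modelCurv s u v) κ 0 := by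
  intro b i t ht hti hsum
  have hs0 : 0 < s := by
    by_contra hneg
    push Not at hneg
    nlinarith
  have h1 : ∀ j, t j * sec (modelCurv s u v) (b i) (b j) = s * t j -
      (1 + s) * (t j * (inner ℝ u (b i) * inner ℝ v (b j) -
        inner ℝ v (b i) * inner ℝ u (b j)) ^ 2) := by
    intro j
    by_cases hij : i = j
    · subst hij
      rw [hti]; ring
    · rw [sec_model s u v b hij]; ring
  simp only [h1]
  rw [Finset.sum_sub_distrib, ← Finset.mul_sum, ← Finset.mul_sum, hsum]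
  have h2 : ∑ j, t j * (inner ℝ u (b i) * inner ℝ v (b j) -
        inner ℝ v (b i) * inner ℝ u (b j)) ^ 2 ≤ 1 := by
    calc _ ≤ ∑ j, (inner ℝ u (b i) * inner ℝ v (b j) -
        inner ℝ v (b i) * inner ℝ u (b j)) ^ 2 := by
          apply Finset.sum_le_sum
          intro j _
          exact mul_le_of_le_one_left (sq_nonneg _) (ht j).2
      _ = inner ℝ u (b i) ^ 2 + inner ℝ v (b i) ^ 2 := sum_sq b huu hvv huv (b i)
      _ ≤ inner ℝ (b i) (b i) := bessel huu hvv huv (b i)
      _ = 1 := by rw [real_inner_self_eq_norm_sq, b.orthonormal.1 i]; norm_num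
  nlinarith

theorem kNonnegSec_model {k : ℕ} {s : ℝ} (hs0 : 0 ≤ s) (hs : 1 ≤ ((k : ℝ) - 1) * s) {u v : E}
    (huu : inner ℝ u u = 1) (hvv : inner ℝ v v = 1) (huv : inner ℝ u v = 0) :
    KNonnegSec n (modelCurv s u v) k := by
  intro b S hS hcard
  let f : Fin n × Fin n → ℝ := fun q => (inner ℝ u (b q.1) * inner ℝ v (b q.2) -
        inner ℝ v (b q.1) * inner ℝ u (b q.2)) ^ 2
  have hf0 : ∀ q, 0 ≤ f q := fun q => sq_nonneg _
  have hfs : ∀ q : Fin n × Fin n, f q.swap = f q := by
    intro q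
    simp only [f, Prod.fst_swap, Prod.snd_swap]
    ring
  have h1 : ∀ q ∈ S, sec (modelCurv s u v) (b q.1) (b q.2) = s - (1 + s) * f q := by
    intro q hq
    exact sec_model s u v b (ne_of_lt (hS q hq))
  rw [Finset.sum_congr rfl h1, Finset.sum_sub_distrib, ← Finset.mul_sum, Finset.sum_const, hcard]
  have htot : ∑ q, f q = 2 := by
    rw [Fintype.sum_prod_type]
    have : ∀ i, ∑ j, f (i, j) = inner ℝ u (b i) * inner ℝ (b i) u +
        inner ℝ v (b i) * inner ℝ (b i) v := by
      intro i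
      simp only [f]
      rw [sum_sq b huu hvv huv (b i), real_inner_comm v (b i), real_inner_comm u (b i)]
      ring
    simp only [this]
    rw [Finset.sum_add_distrib, b.sum_inner_mul_inner, b.sum_inner_mul_inner, huu, hvv]
    norm_num
  have h2 : ∑ q ∈ S, f q ≤ 1 := by
    have hd : Disjoint S (S.map (Equiv.prodComm (Fin n) (Fin n)).toEmbedding) := by
      rw [Finset.disjoint_left]
      intro q hq hq'
      rw [Finset.mem_map] at hq'
      obtain ⟨r, hr, hrq⟩ := hq'
      have h3 := hS q hq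
      have h4 := hS r hr
      rw [← hrq] at h3
      simp at h3
      exact absurd h4 (not_lt.2 h3.le)
    have h5 : ∑ q ∈ S ∪ S.map (Equiv.prodComm (Fin n) (Fin n)).toEmbedding, f q ≤ ∑ q, f q :=
      Finset.sum_le_sum_of_subset_of_nonneg (Finset.subset_univ _) (fun q _ _ => hf0 q)
    rw [Finset.sum_union hd, Finset.sum_map, htot] at h5
    have h6 : ∑ q ∈ S, f ((Equiv.prodComm (Fin n) (Fin n)).toEmbedding q) = ∑ q ∈ S, f q := by
      apply Finset.sum_congr rfl
      intro q _
      exact hfs q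
    rw [h6] at h5
    linarith
  have h7 : k • s = (k : ℝ) * s := by simp
  rw [h7]
  nlinarith

theorem bochner_model (e : OrthonormalBasis (Fin n) ℝ E) (s : ℝ) {u v : E}
    (huu : inner ℝ u u = 1) (hvv : inner ℝ v v = 1) (huv : inner ℝ u v = 0) (X : Fin p → E) :
    bochnerTerm (modelCurv s u v) e (phi p u v) X =
      (s * p * (n - 2) - p ^ 2) * phi p u v X := by
  unfold modelCurv
  rw [bochnerTerm_lin, bochner_const e _ (phi_symm p u v) (phi_traceFree e u v huu hvv huv),
    bochner_plane e u v huu hvv huv]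
  ring

theorem not_symNonneg_model (hp : 1 ≤ p) (e : OrthonormalBasis (Fin n) ℝ E) {s : ℝ}
    (hs : s * (n - 2) < p) {i j : Fin n} (hij : i ≠ j) :
    ¬ SymNonneg n p (modelCurv s (e i) (e j)) := by
  intro h
  have huu : inner ℝ (e i) (e i) = 1 := by
    rw [real_inner_self_eq_norm_sq, e.orthonormal.1 i]; norm_num
  have hvv : inner ℝ (e j) (e j) = 1 := by
    rw [real_inner_self_eq_norm_sq, e.orthonormal.1 j]; norm_num
  have huv : inner ℝ (e i) (e j) = 0 := e.orthonormal.2 hij
  have h1 := h e (phi p (e i) (e j)) (phi_symm p _ _)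
  simp only [bochner_model e s huu hvv huv] at h1
  have h2 : ∀ I : Fin p → Fin n, (s * p * (n - 2) - p ^ 2) *
      phi p (e i) (e j) (fun a => e (I a)) * phi p (e i) (e j) (fun a => e (I a)) =
      (s * p * (n - 2) - p ^ 2) * (phi p (e i) (e j) (fun a => e (I a))) ^ 2 := by
    intro I; ring
  simp only [h2] at h1
  rw [← Finset.mul_sum] at h1
  have hp0 : (0 : ℝ) < p := by exact_mod_cast hp
  have h3 : s * p * (n - 2) - p ^ 2 < 0 := by nlinarith
  have h4 : 1 ≤ ∑ I : Fin p → Fin n, (phi p (e i) (e j) (fun a => e (I a))) ^ 2 := by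
    have h5 : phi p (e i) (e j) (fun _ => e i) = 1 := by
      have hvu : inner ℝ (e j) (e i) = 0 := e.orthonormal.2 hij.symm
      rw [phi_apply]
      have : zc (e i) (e j) (e i) = 1 := by rw [zc_apply, huu, hvu]; simp
      simp [this]
    calc (1 : ℝ) = (phi p (e i) (e j) (fun _ => e i)) ^ 2 := by rw [h5]; norm_num
      _ ≤ _ := Finset.single_le_sum
        (f := fun I : Fin p → Fin n => (phi p (e i) (e j) (fun a => e (I a))) ^ 2)
        (fun I _ => sq_nonneg _) (Finset.mem_univ (fun _ => i))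
  nlinarith

/-- `k`-nonnegative sectional curvature implies the weighted condition for every weight
`κ ≥ k`. -/
theorem ricGe_of_kNonnegSec {k : ℕ} {κ : ℝ} (hk : 1 ≤ k) (hkκ : (k : ℝ) ≤ κ)
    {R : E →ₗ[ℝ] E →ₗ[ℝ] E →ₗ[ℝ] E} (hR : IsCurvatureTensor R) (h : KNonnegSec n R k) :
    RicGe n R κ 0 := by
  intro b i t ht hti hsum
  obtain ⟨m, rfl⟩ : ∃ m, n = m + 1 := ⟨n - 1, by have := i.2; omega⟩
  rw [Fin.sum_univ_succAbove _ i, hti, zero_mul, zero_add]
  rw [Fin.sum_univ_succAbove _ i, hti, zero_add] at hsum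
  have hm : κ ≤ m := by
    rw [← hsum]
    calc ∑ j, t (i.succAbove j) ≤ ∑ _j : Fin m, (1 : ℝ) :=
          Finset.sum_le_sum (fun j _ => (ht _).2)
      _ = m := by simp
  have hkm : k ≤ m := by exact_mod_cast hkκ.trans hm
  refine weighted_nonneg hk hkm (fun j => sec R (b i) (b (i.succAbove j)))
    (fun j => t (i.succAbove j)) 1 (fun j => (ht _).1) (fun j => (ht _).2)
    (by rw [mul_one, hsum]; exact hkκ) ?_
  intro S hS
  let g : Fin m ↪ Fin (m + 1) × Fin (m + 1) :=
    ⟨fun j => (min i (i.succAbove j), max i (i.succAbove j)), by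
      intro x y hxy
      simp only [Prod.mk.injEq] at hxy
      have hx := Fin.succAbove_ne i x
      have hy := Fin.succAbove_ne i y
      apply Fin.succAbove_right_injective (p := i)
      rcases lt_or_gt_of_ne hx with h1 | h1 <;> rcases lt_or_gt_of_ne hy with h2 | h2
      · rw [min_eq_right h1.le, min_eq_right h2.le] at hxy
        exact hxy.1
      · rw [min_eq_right h1.le, min_eq_left h2.le] at hxy
        exact absurd hxy.1 hx
      · rw [min_eq_left h1.le, min_eq_right h2.le] at hxy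
        exact absurd hxy.1.symm hy
      · rw [max_eq_right h1.le, max_eq_right h2.le] at hxy
        exact hxy.2⟩
  have h2 := h b (S.map g) (by
    intro q hq
    rw [Finset.mem_map] at hq
    obtain ⟨j, _, rfl⟩ := hq
    have hx := Fin.succAbove_ne i j
    change min i (i.succAbove j) < max i (i.succAbove j)
    exact min_lt_max.2 hx.symm) (by rw [Finset.card_map, hS])
  rw [Finset.sum_map] at h2
  refine h2.trans_eq ?_
  apply Finset.sum_congr rfl
  intro j _
  have hx := Fin.succAbove_ne i j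
  change sec R (b (min i (i.succAbove j))) (b (max i (i.succAbove j))) = _
  rcases lt_or_gt_of_ne hx with h1 | h1
  · rw [min_eq_right h1.le, max_eq_left h1.le, sec_comm hR]
  · rw [min_eq_left h1.le, max_eq_right h1.le]

/-- Quantitative form on trace-free tensors. -/
theorem quantitative {κ c : ℝ} (hk : 1 ≤ κ) (hkp : (κ - 1) * p + 2 ≤ n)
    {R : E →ₗ[ℝ] E →ₗ[ℝ] E →ₗ[ℝ] E} (hR : IsCurvatureTensor R) (h : RicGe n R κ c)
    (e : OrthonormalBasis (Fin n) ℝ E) (φ : T p E) (hs : IsSymm φ) (ht : TraceFree e φ) :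
    c / κ * (p * (n + p - 2)) * ∑ I : Fin p → Fin n, (φ (fun a => e (I a))) ^ 2 ≤
      ∑ I : Fin p → Fin n, bochnerTerm R e φ (fun a => e (I a)) * φ (fun a => e (I a)) := by
  have hκ0 : κ ≠ 0 := by linarith
  have hric : RicGe n ((1 : ℝ) • R + (-(c / κ)) • constCurv) κ 0 := by
    intro b i t ht hti hsum
    have h1 := h b i t ht hti hsum
    have h2 : ∀ j, t j * sec ((1 : ℝ) • R + (-(c / κ)) • constCurv) (b i) (b j) =
        t j * sec R (b i) (b j) - c / κ * t j := by
      intro j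
      by_cases hij : i = j
      · subst hij
        rw [hti]; ring
      · rw [sec_lin, sec_constCurv (b.orthonormal.1 i) (b.orthonormal.1 j)
          (b.orthonormal.2 hij)]
        ring
    simp only [h2]
    rw [Finset.sum_sub_distrib, ← Finset.mul_sum, hsum, div_mul_cancel₀ _ hκ0]
    linarith
  have h3 := main_nonneg hk hkp _ (hR.lin constCurv_isCurvatureTensor 1 (-(c / κ))) hric e φ hs
  simp only [bochnerTerm_lin, bochner_const e φ hs ht] at h3
  have h4 : ∀ I : Fin p → Fin n, (1 * bochnerTerm R e φ (fun a => e (I a)) +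
      -(c / κ) * (p * (n + p - 2) * φ (fun a => e (I a)))) * φ (fun a => e (I a)) =
      bochnerTerm R e φ (fun a => e (I a)) * φ (fun a => e (I a)) -
        c / κ * (p * (n + p - 2)) * (φ (fun a => e (I a))) ^ 2 := by
    intro I; ring
  simp only [h4] at h3
  rw [Finset.sum_sub_distrib, ← Finset.mul_sum] at h3
  linarith

/-- Exact threshold for the weighted intermediate Ricci condition. -/
theorem ric_threshold {n p : ℕ} (hn : 2 ≤ n) (hp : 1 ≤ p) {κ : ℝ} (hκ : 1 ≤ κ) :
    (∀ R : EuclideanSpace ℝ (Fin n) →ₗ[ℝ] EuclideanSpace ℝ (Fin n) →ₗ[ℝ]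
        EuclideanSpace ℝ (Fin n) →ₗ[ℝ] EuclideanSpace ℝ (Fin n),
      IsCurvatureTensor R → RicGe n R κ 0 → SymNonneg n p R) ↔
    κ ≤ ((n : ℝ) + p - 2) / p := by
  have hp0 : (0 : ℝ) < p := by exact_mod_cast hp
  have hn0 : (2 : ℝ) ≤ n := by exact_mod_cast hn
  rw [le_div_iff₀ hp0]
  constructor
  · intro h
    by_contra hneg
    push Not at hneg
    have hκ1 : 1 < κ := by
      by_contra h1
      push Not at h1
      nlinarith
    have hij : (⟨0, by omega⟩ : Fin n) ≠ ⟨1, by omega⟩ := by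
      intro h1
      simpa using congrArg Fin.val h1
    have hk1 : 0 < κ - 1 := by linarith
    let e := EuclideanSpace.basisFun (Fin n) ℝ
    have huu : inner ℝ (e ⟨0, by omega⟩) (e ⟨0, by omega⟩) = (1 : ℝ) := by
      rw [real_inner_self_eq_norm_sq, e.orthonormal.1]; norm_num
    have hvv : inner ℝ (e ⟨1, by omega⟩) (e ⟨1, by omega⟩) = (1 : ℝ) := by
      rw [real_inner_self_eq_norm_sq, e.orthonormal.1]; norm_num
    refine not_symNonneg_model (s := (κ - 1)⁻¹) hp e ?_ hij (h _ ?_ ?_)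
    · rw [inv_mul_lt_iff₀ hk1]
      nlinarith
    · exact constCurv_isCurvatureTensor.lin (planeCurv_isCurvatureTensor _ _) _ _
    · exact ricGe_model hκ1 (by rw [mul_inv_cancel₀ hk1.ne']) huu hvv (e.orthonormal.2 hij)
  · intro h R hR hric e φ hφ
    exact main_nonneg hκ (by linarith) R hR hric e φ hφ

/-- Exact threshold for `k`-nonnegative sectional curvature. -/
theorem sec_threshold {n p : ℕ} (hn : 2 ≤ n) (hp : 1 ≤ p) {k : ℕ} (hk : 1 ≤ k) :
    (∀ R : EuclideanSpace ℝ (Fin n) →ₗ[ℝ] EuclideanSpace ℝ (Fin n) →ₗ[ℝ]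
        EuclideanSpace ℝ (Fin n) →ₗ[ℝ] EuclideanSpace ℝ (Fin n),
      IsCurvatureTensor R → KNonnegSec n R k → SymNonneg n p R) ↔
    k ≤ (n + p - 2) / p := by
  have hp0 : (0 : ℝ) < p := by exact_mod_cast hp
  have hn0 : (2 : ℝ) ≤ n := by exact_mod_cast hn
  have hk0 : (1 : ℝ) ≤ k := by exact_mod_cast hk
  have hcast : ((n + p - 2 : ℕ) : ℝ) = (n : ℝ) + p - 2 := by
    rw [Nat.cast_sub (by omega)]
    push_cast
    ring
  rw [Nat.le_div_iff_mul_le (by omega)]
  constructor
  · intro h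
    by_contra hneg
    push Not at hneg
    have hneg' : (n : ℝ) + p - 2 < k * p := by
      rw [← hcast]
      exact_mod_cast hneg
    have hκ1 : (1 : ℝ) < k := by
      by_contra h1
      push Not at h1
      nlinarith
    have hij : (⟨0, by omega⟩ : Fin n) ≠ ⟨1, by omega⟩ := by
      intro h1
      simpa using congrArg Fin.val h1
    have hk1 : 0 < (k : ℝ) - 1 := by linarith
    let e := EuclideanSpace.basisFun (Fin n) ℝ
    have huu : inner ℝ (e ⟨0, by omega⟩) (e ⟨0, by omega⟩) = (1 : ℝ) := by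
      rw [real_inner_self_eq_norm_sq, e.orthonormal.1]; norm_num
    have hvv : inner ℝ (e ⟨1, by omega⟩) (e ⟨1, by omega⟩) = (1 : ℝ) := by
      rw [real_inner_self_eq_norm_sq, e.orthonormal.1]; norm_num
    refine not_symNonneg_model (s := ((k : ℝ) - 1)⁻¹) hp e ?_ hij (h _ ?_ ?_)
    · rw [inv_mul_lt_iff₀ hk1]
      nlinarith
    · exact constCurv_isCurvatureTensor.lin (planeCurv_isCurvatureTensor _ _) _ _
    · exact kNonnegSec_model (inv_nonneg.2 hk1.le) (by rw [mul_inv_cancel₀ hk1.ne']) huu hvv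
        (e.orthonormal.2 hij)
  · intro h R hR hsec e φ hφ
    have h1 : (k : ℝ) * p ≤ (n : ℝ) + p - 2 := by
      rw [← hcast]
      exact_mod_cast h
    exact main_nonneg hk0 (by linarith) R hR (ricGe_of_kNonnegSec hk le_rfl hR hsec) e φ hφ

end Pool.Agent.H38.SecP
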